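import Pool.Agent.Results.MP_459ac8_an.AnyModuli

/-!
The former hand-in `ZeroDensity`, derived from `AnyModuli` with `r n = 1 - 1 / (n + 2)`.
-/

namespace Pool.Agent.Lib.MP_459ac8_an.Variants.ZeroDensity

open Pool.Agent.Lib.MP_459ac8_an Filter Topology

theorem result :
    ∃ Λ : ℕ → ℂ, Function.Injective Λ ∧ (∀ n, ‖Λ n‖ < 1) ∧
      upperDensity (Set.range Λ) = 0 ∧
      ∀ p : ℝ, 1 < p → ∀ f : ℂ → ℂ, DifferentiableOn ℂ f (Metric.ball 0 1) →
        hardyNorm p f < ⊤ →
        ∃ c : ℕ → ℂ, Tendsto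
          (fun N : ℕ => hardyNorm p fun z =>
            f z - ∑ n ∈ Finset.range N, c n * (1 / (1 - (starRingEnd ℂ) (Λ n) * z)))
          atTop (𝓝 0) := by
  have h := Pool.Agent.Results.MP_459ac8_an.AnyModuli.result (fun n => 1 - 1 / ((n : ℝ) + 2))
    (fun i j hij => sub_le_sub_left (one_div_le_one_div_of_le (by positivity)
      (by simpa using hij)) 1) (by norm_num) (fun n => sub_lt_self _ (by positivity))
    (by simpa using ((tendsto_const_nhds (x := (1 : ℝ))).div_atTop
      (tendsto_atTop_add_const_right _ 2 tendsto_natCast_atTop_atTop)).const_sub 1)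
  obtain ⟨Λ, g1, g2, g3, g4⟩ := (h.out 0 2).1 (fun hs => Real.not_summable_one_div_natCast
    ((summable_nat_add_iff 2).1 (by simpa using hs)))
  exact ⟨Λ, g1, fun n => (g2 n).2, g3, g4 1⟩

end Pool.Agent.Lib.MP_459ac8_an.Variants.ZeroDensity
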